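import Pool.Agent.Helper53.AE.GoalsB
import Pool.Agent.Helper61.CAR.ORTH

/-!
Packet AE-FWB (project AE, MP_8130e1_an): the window elements almost commute.
-/

set_option autoImplicit false

open scoped ComplexOrder Topology
open Filter TopologicalSpace

namespace Pool.Agent.Helper2.AE.FWB

open Pool.Agent.Helper53.AE

section

variable {M : Type} [CStarAlgebra M]

theorem norm_pj {e : M} (he : Pj e) : ‖e‖ ≤ 1 := by
  have h1 : ‖e‖ * ‖e‖ = ‖e‖ := by
    have h2 := CStarRing.norm_star_mul_self (x := e)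
    rw [he.1, he.2] at h2
    exact h2.symm
  by_contra h
  push Not at h
  nlinarith [norm_nonneg e]

theorem mono {p : ℕ → M} (hp : ∀ k, Pj (p k)) (hinc : ∀ k, p (k + 1) * p k = p k) {a b : ℕ}
    (hab : a ≤ b) : p b * p a = p a := by
  induction b, hab using Nat.le_induction with
  | base => exact (hp a).2
  | succ b _ ih =>
    calc p (b + 1) * p a = p (b + 1) * (p b * p a) := by rw [ih]
      _ = p b * p a := by rw [← mul_assoc, hinc]
      _ = p a := ih

theorem mono' {p : ℕ → M} (hp : ∀ k, Pj (p k)) (hinc : ∀ k, p (k + 1) * p k = p k) {a b : ℕ}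
    (hab : a ≤ b) : p a * p b = p a := by
  have h := congrArg star (mono hp hinc hab)
  rwa [star_mul, (hp a).1, (hp b).1] at h

/-- the successive differences. -/
def q (p : ℕ → M) (k : ℕ) : M := p (k + 1) - p k

theorem q_pj {p : ℕ → M} (hp : ∀ k, Pj (p k)) (hinc : ∀ k, p (k + 1) * p k = p k) (k : ℕ) :
    Pj (q p k) := by
  constructor
  · unfold q
    rw [star_sub, (hp _).1, (hp _).1]
  · unfold q
    rw [sub_mul, mul_sub, mul_sub, (hp _).2, (hp _).2, hinc, mono' hp hinc (Nat.le_succ k)]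
    abel

theorem q_orth_lt {p : ℕ → M} (hp : ∀ k, Pj (p k)) (hinc : ∀ k, p (k + 1) * p k = p k) {k l : ℕ}
    (h : k < l) : q p k * q p l = 0 := by
  unfold q
  rw [sub_mul, mul_sub, mul_sub, mono' hp hinc (show k + 1 ≤ l + 1 by omega),
    mono' hp hinc (show k + 1 ≤ l by omega), mono' hp hinc (show k ≤ l + 1 by omega),
    mono' hp hinc (show k ≤ l by omega)]
  abel

theorem q_orth {p : ℕ → M} (hp : ∀ k, Pj (p k)) (hinc : ∀ k, p (k + 1) * p k = p k) {k l : ℕ}
    (h : k ≠ l) : q p k * q p l = 0 := by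
  rcases lt_or_gt_of_ne h with h | h
  · exact q_orth_lt hp hinc h
  · have h1 := congrArg star (q_orth_lt hp hinc h)
    rwa [star_mul, (q_pj hp hinc l).1, (q_pj hp hinc k).1, star_zero] at h1

theorem band {p : ℕ → M} (hp : ∀ k, Pj (p k)) (hinc : ∀ k, p (k + 1) * p k = p k) (x : M)
    (L : ℕ) (d : ℕ → ℂ) (ε : ℝ) (hd : ∀ k, ‖d k‖ ≤ ε) :
    ‖∑ k ∈ Finset.range L, d k • (q p k * x * q p (k + 1))‖ ≤ ε * ‖x‖ := by
  have hε : 0 ≤ ε := (norm_nonneg _).trans (hd 0)
  rw [Finset.sum_range fun k => d k • (q p k * x * q p (k + 1))]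
  refine Pool.Agent.Helper61.CAR.orth M (Fin L)
    (fun k => d k • (q p k * x * q p (k + 1))) (ε * ‖x‖) (mul_nonneg hε (norm_nonneg _)) ?_ ?_
  · intro k
    rw [norm_smul]
    refine mul_le_mul (hd k) ?_ (norm_nonneg _) hε
    calc ‖q p k * x * q p (k + 1)‖ ≤ ‖q p k‖ * ‖x‖ * ‖q p (k + 1)‖ := norm_mul₃_le
      _ ≤ 1 * ‖x‖ * 1 := by
        refine mul_le_mul (mul_le_mul_of_nonneg_right (norm_pj (q_pj hp hinc k))
          (norm_nonneg _)) (norm_pj (q_pj hp hinc _)) (norm_nonneg _) (by positivity)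
      _ = ‖x‖ := by ring
  · intro i j hij
    have hij' : (i : ℕ) ≠ (j : ℕ) := fun h => hij (Fin.ext h)
    constructor
    · show star (d i • (q p i * x * q p (i + 1))) * (d j • (q p j * x * q p (j + 1))) = 0
      rw [star_smul, smul_mul_smul_comm, star_mul, star_mul, (q_pj hp hinc _).1,
        (q_pj hp hinc _).1]
      have h : q p (i + 1) * (star x * q p i) * (q p j * x * q p (j + 1))
          = q p (i + 1) * star x * (q p i * q p j) * x * q p (j + 1) := by
        noncomm_ring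
      rw [h, q_orth hp hinc hij']
      simp
    · show (d i • (q p i * x * q p (i + 1))) * star (d j • (q p j * x * q p (j + 1))) = 0
      rw [star_smul, smul_mul_smul_comm, star_mul, star_mul, (q_pj hp hinc _).1,
        (q_pj hp hinc _).1]
      have h : q p i * x * q p (i + 1) * (q p (j + 1) * (star x * q p j))
          = q p i * x * (q p (i + 1) * q p (j + 1)) * star x * q p j := by
        noncomm_ring
      rw [h, q_orth hp hinc (show (i : ℕ) + 1 ≠ j + 1 by omega)]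
      simp

theorem band' {p : ℕ → M} (hp : ∀ k, Pj (p k)) (hinc : ∀ k, p (k + 1) * p k = p k) (x : M)
    (L : ℕ) (d : ℕ → ℂ) (ε : ℝ) (hd : ∀ k, ‖d k‖ ≤ ε) :
    ‖∑ k ∈ Finset.range L, d k • (q p (k + 1) * x * q p k)‖ ≤ ε * ‖x‖ := by
  have h := band hp hinc (star x) L (fun k => star (d k)) ε (fun k => by
    rw [norm_star]
    exact hd k)
  rw [norm_star] at h
  rw [← norm_star, star_sum]
  refine le_trans (le_of_eq ?_) h
  congr 1
  refine Finset.sum_congr rfl fun k _ => ?_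
  rw [star_smul, star_mul, star_mul, (q_pj hp hinc _).1, (q_pj hp hinc _).1, mul_assoc]

/-- the error term. -/
def er (p : ℕ → M) (x : M) (k : ℕ) : M :=
  p k * x * (1 - p (k + 1)) * q p (k + 1) + p (k + 1) * x * (1 - p (k + 2))
    - q p (k + 1) * ((1 - p (k + 1)) * x * p k) - (1 - p (k + 2)) * x * p (k + 1)

theorem comm_eq {p : ℕ → M} (hp : ∀ k, Pj (p k)) (hinc : ∀ k, p (k + 1) * p k = p k) (x : M)
    (k : ℕ) : p (k + 1) * x - x * p (k + 1)
      = q p k * x * q p (k + 1) - q p (k + 1) * x * q p k + er p x k := by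
  have h1 : (1 - p (k + 1)) * q p (k + 1) = q p (k + 1) := by
    unfold q
    rw [sub_mul, one_mul, mul_sub, mono' hp hinc (Nat.le_succ (k + 1)), (hp _).2]
    abel
  have h2 : q p (k + 1) * (1 - p (k + 1)) = q p (k + 1) := by
    have h := congrArg star h1
    rwa [star_mul, (q_pj hp hinc _).1, star_sub, star_one, (hp _).1] at h
  unfold er
  rw [mul_assoc (p k * x), h1, mul_assoc (1 - p (k + 1)), ← mul_assoc (q p (k + 1)), h2]
  unfold q
  noncomm_ring

theorem norm_er {p : ℕ → M} (hp : ∀ k, Pj (p k)) (hinc : ∀ k, p (k + 1) * p k = p k) (x : M)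
    (k : ℕ) (hx : ∀ k', k ≤ k' → ‖(1 - p (k' + 1)) * x * p k'‖ ≤ (1 / 2) ^ k' ∧
      ‖p k' * x * (1 - p (k' + 1))‖ ≤ (1 / 2) ^ k') : ‖er p x k‖ ≤ 3 * (1 / 2) ^ k := by
  have h1 := hx k le_rfl
  have h2 := hx (k + 1) (Nat.le_succ k)
  have hq := norm_pj (q_pj hp hinc (k + 1))
  have e1 : ‖p k * x * (1 - p (k + 1)) * q p (k + 1)‖ ≤ (1 / 2) ^ k := by
    calc ‖p k * x * (1 - p (k + 1)) * q p (k + 1)‖
        ≤ ‖p k * x * (1 - p (k + 1))‖ * ‖q p (k + 1)‖ := norm_mul_le _ _
      _ ≤ (1 / 2) ^ k * 1 := mul_le_mul h1.2 hq (norm_nonneg _) (by positivity)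
      _ = (1 / 2) ^ k := mul_one _
  have e3 : ‖q p (k + 1) * ((1 - p (k + 1)) * x * p k)‖ ≤ (1 / 2) ^ k := by
    calc ‖q p (k + 1) * ((1 - p (k + 1)) * x * p k)‖
        ≤ ‖q p (k + 1)‖ * ‖(1 - p (k + 1)) * x * p k‖ := norm_mul_le _ _
      _ ≤ 1 * (1 / 2) ^ k := mul_le_mul hq h1.1 (norm_nonneg _) (by norm_num)
      _ = (1 / 2) ^ k := one_mul _
  unfold er
  have t1 := norm_sub_le (p k * x * (1 - p (k + 1)) * q p (k + 1)
    + p (k + 1) * x * (1 - p (k + 2)) - q p (k + 1) * ((1 - p (k + 1)) * x * p k))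
    ((1 - p (k + 2)) * x * p (k + 1))
  have t2 := norm_sub_le (p k * x * (1 - p (k + 1)) * q p (k + 1)
    + p (k + 1) * x * (1 - p (k + 2))) (q p (k + 1) * ((1 - p (k + 1)) * x * p k))
  have t3 := norm_add_le (p k * x * (1 - p (k + 1)) * q p (k + 1))
    (p (k + 1) * x * (1 - p (k + 2)))
  have h4 : ((1 : ℝ) / 2) ^ (k + 1) = (1 / 2) ^ k / 2 := by ring
  have h21 := h2.1
  have h22 := h2.2
  rw [h4] at h21 h22
  have e2 : ‖(1 - p (k + 2)) * x * p (k + 1)‖ ≤ (1 / 2) ^ k / 2 := h21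
  have e4 : ‖p (k + 1) * x * (1 - p (k + 2))‖ ≤ (1 / 2) ^ k / 2 := h22
  linarith

end

theorem t : S_FWB := by
  intro M _ p x hp0 hp hinc hx N c hN0 hN hc0 hcN hcd j n hjn
  set L := N (n + 2) with hL
  set d : ℕ → ℂ := fun k => (c n k : ℂ) - (c n (k + 1) : ℂ) with hd
  have hnorm : ∀ k, ‖d k‖ ≤ (1 / 2) ^ n := by
    intro k
    rw [hd]
    show ‖(c n k : ℂ) - (c n (k + 1) : ℂ)‖ ≤ (1 / 2) ^ n
    rw [← Complex.ofReal_sub, Complex.norm_real, Real.norm_eq_abs]
    exact hcd n k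
  have hNn : ∀ m, m ≤ N m := by
    intro m
    induction m with
    | zero => exact Nat.zero_le _
    | succ m ih => exact Nat.succ_le_of_lt (lt_of_le_of_lt ih (hN m))
  have hdz : ∀ k, k < j → d k = 0 := by
    intro k hk
    have h1 := hNn n
    have h2 : c n k = 0 := hcN n k (Or.inl (by omega))
    have h3 : c n (k + 1) = 0 := hcN n (k + 1) (Or.inl (by omega))
    rw [hd]
    show (c n k : ℂ) - (c n (k + 1) : ℂ) = 0
    rw [h2, h3, sub_self]
  -- Abel summation
  have hf : fw p N c n = ∑ k ∈ Finset.range L, d k • p (k + 1) := by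
    have h1 : ∑ k ∈ Finset.range L, ((c n (k + 1) : ℂ) • p (k + 1) - (c n k : ℂ) • p k) = 0 := by
      rw [Finset.sum_range_sub (fun k => (c n k : ℂ) • p k) L, hp0, smul_zero, sub_zero,
        hcN n L (Or.inr le_rfl), Complex.ofReal_zero, zero_smul]
    unfold fw
    rw [← sub_eq_zero, ← Finset.sum_sub_distrib, ← h1]
    refine Finset.sum_congr rfl fun k _ => ?_
    rw [hd]
    show (c n k : ℂ) • (p (k + 1) - p k) - ((c n k : ℂ) - (c n (k + 1) : ℂ)) • p (k + 1)
      = (c n (k + 1) : ℂ) • p (k + 1) - (c n k : ℂ) • p k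
    rw [smul_sub, sub_smul]
    abel
  have hcomm : fw p N c n * x j - x j * fw p N c n
      = ∑ k ∈ Finset.range L, d k • (q p k * x j * q p (k + 1))
        - ∑ k ∈ Finset.range L, d k • (q p (k + 1) * x j * q p k)
        + ∑ k ∈ Finset.range L, d k • er p (x j) k := by
    rw [hf, Finset.sum_mul, Finset.mul_sum, ← Finset.sum_sub_distrib, ← Finset.sum_sub_distrib,
      ← Finset.sum_add_distrib]
    refine Finset.sum_congr rfl fun k _ => ?_
    rw [smul_mul_assoc, mul_smul_comm, ← smul_sub, ← smul_sub, ← smul_add,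
      comm_eq hp hinc (x j) k]
  have hA := band hp hinc (x j) L d _ hnorm
  have hB := band' hp hinc (x j) L d _ hnorm
  have hC : ‖∑ k ∈ Finset.range L, d k • er p (x j) k‖ ≤ 6 * (1 / 2) ^ n := by
    have h1 : ∀ k ∈ Finset.range L, ‖d k • er p (x j) k‖ ≤ (1 / 2) ^ n * (3 * (1 / 2) ^ k) := by
      intro k _
      rw [norm_smul]
      by_cases hk : k < j
      · rw [hdz k hk, norm_zero, zero_mul]
        positivity
      · push Not at hk
        exact mul_le_mul (hnorm k) (norm_er hp hinc (x j) k fun k' hk' => hx j k' (hk.trans hk'))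
          (norm_nonneg _) (by positivity)
    refine (norm_sum_le _ _).trans ((Finset.sum_le_sum h1).trans ?_)
    rw [← Finset.mul_sum, ← Finset.mul_sum]
    have h2 : ∑ k ∈ Finset.range L, ((1 : ℝ) / 2) ^ k ≤ 2 := by
      have h3 := geom_sum_eq (show ((1 : ℝ) / 2) ≠ 1 by norm_num) L
      rw [h3]
      have h4 : (0 : ℝ) ≤ (1 / 2) ^ L := by positivity
      have h5 : (((1 : ℝ) / 2) ^ L - 1) / (1 / 2 - 1) = 2 - 2 * (1 / 2) ^ L := by
        field_simp
        ring
      rw [h5]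
      linarith
    have h3 : (0 : ℝ) ≤ (1 / 2) ^ n := by positivity
    nlinarith
  rw [hcomm]
  have t1 := norm_add_le (∑ k ∈ Finset.range L, d k • (q p k * x j * q p (k + 1))
        - ∑ k ∈ Finset.range L, d k • (q p (k + 1) * x j * q p k))
        (∑ k ∈ Finset.range L, d k • er p (x j) k)
  have t2 := norm_sub_le (∑ k ∈ Finset.range L, d k • (q p k * x j * q p (k + 1)))
        (∑ k ∈ Finset.range L, d k • (q p (k + 1) * x j * q p k))
  have h3 : (0 : ℝ) ≤ (1 / 2) ^ n := by positivity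
  nlinarith

end Pool.Agent.Helper2.AE.FWB
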